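import Mathlib

/-!
# MP_e518dc_lc: logical equivalence does not imply sum-bisimilarity of labelled Markov processes

For every nonempty label set `L` there are labelled Markov processes `M`, `M'` over `L` and
logically equivalent states `s`, `s'` such that no `⊕`-bisimulation between `M` and `M'`
relates `s` and `s'`.  (Negative answer to Q1.)

The state spaces are subsets of the real line with the trace of the Borel σ-algebra:
`S = {2} ∪ X` and `S' = {2} ∪ X'` where `X`, `X'` are complementary subsets of `[0,1)`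
of full outer Lebesgue measure.
-/

open MeasureTheory ProbabilityTheory Set
open scoped ENNReal Pointwise

namespace Pool.Agent.Results.MP_e518dc_lc.LogicVersusSumBisim

universe u v w

/-- A labelled Markov process over the label set `L` with state space `S`: for every label a
Markov kernel `S × Σ → [0,1]` (`Kernel` is a measurable map to measures, equivalently
`τ a · X` is measurable for each measurable `X`), all of whose measures are subprobabilities. -/
structure LMP (L : Type u) (S : Type v) [MeasurableSpace S] where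
  /-- the kernels -/
  τ : L → Kernel S S
  /-- they are subprobability kernels -/
  sub : ∀ a s, τ a s Set.univ ≤ 1

/-- The formulas `⊤ ∣ φ ∧ ψ ∣ ⟨a⟩_{≥ q} φ`, `a ∈ L`, `q ∈ ℚ ∩ [0,1]`. -/
inductive Form (L : Type u) : Type u
  | top : Form L
  | and : Form L → Form L → Form L
  | dia : L → (q : Set.Icc (0 : ℚ) 1) → Form L → Form L

/-- The set of states satisfying a formula. -/
def LMP.sem {L : Type u} {S : Type v} [MeasurableSpace S] (M : LMP L S) : Form L → Set S
  | .top => Set.univ
  | .and φ ψ => M.sem φ ∩ M.sem ψ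
  | .dia a q φ => {s | ENNReal.ofReal ((q : ℚ) : ℝ) ≤ M.τ a s (M.sem φ)}

/-- The transition function of the sum process on `S ⊕ S'`. -/
noncomputable def sumτ {L : Type u} {S : Type v} {S' : Type w} [MeasurableSpace S]
    [MeasurableSpace S'] (M : LMP L S) (M' : LMP L S') (a : L) :
    S ⊕ S' → Set (S ⊕ S') → ℝ≥0∞
  | .inl s, A => M.τ a s (Sum.inl ⁻¹' A)
  | .inr s', A => M'.τ a s' (Sum.inr ⁻¹' A)

/-- The σ-algebra `Σ ⊕ Σ' = {Q ⊕ Q'}` of the sum, spelled out. -/
def SumMeas {S : Type v} {S' : Type w} [MeasurableSpace S] [MeasurableSpace S']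
    (A : Set (S ⊕ S')) : Prop :=
  ∃ (Q : Set S) (Q' : Set S'), MeasurableSet Q ∧ MeasurableSet Q' ∧
    A = Sum.inl '' Q ∪ Sum.inr '' Q'

/-- `A` is `R`-closed: every point related by `R`, in either direction, to a point of `A`
lies in `A`. -/
def RClosed {X : Type*} (R : X → X → Prop) (A : Set X) : Prop :=
  ∀ x y, (R x y ∨ R y x) → x ∈ A → y ∈ A

/-- `⊕`-bisimulations between `M` and `M'`: equivalence relations on `S ⊕ S'` such that any two
related points of different summands have the same transition values on all `R`-closed sets of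
`Σ ⊕ Σ'`. -/
def SumBisim {L : Type u} {S : Type v} {S' : Type w} [MeasurableSpace S]
    [MeasurableSpace S'] (M : LMP L S) (M' : LMP L S') (R : S ⊕ S' → S ⊕ S' → Prop) : Prop :=
  Equivalence R ∧ ∀ x y, R x y → x.isLeft ≠ y.isLeft →
    ∀ (a : L) (A : Set (S ⊕ S')), RClosed R A → SumMeas A → sumτ M M' a x A = sumτ M M' a y A

/-- States satisfying the same formulas. -/
def LogEq {L : Type u} {S : Type v} {S' : Type w} [MeasurableSpace S]
    [MeasurableSpace S'] (M : LMP L S) (M' : LMP L S') (s : S) (s' : S') : Prop :=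
  ∀ φ : Form L, s ∈ M.sem φ ↔ s' ∈ M'.sem φ

/-! ### Complementary thick sets -/

/-- A nonzero `ℚ`-linear functional on `ℝ` takes the value `1` at arbitrarily small points. -/
lemma exists_functional : ∃ f : ℝ →ₗ[ℚ] ℚ, ∀ U ∈ nhds (0 : ℝ), ∃ y ∈ U, f y = 1 := by
  obtain ⟨g, hg⟩ : ∃ g : Module.Dual ℚ ℝ, g (1 : ℝ) ≠ 0 := by
    by_contra h
    push Not at h
    exact one_ne_zero ((Module.forall_dual_apply_eq_zero_iff ℚ (1 : ℝ)).1 h)
  refine ⟨g, ?_⟩
  -- a point with value one
  obtain ⟨x0, hx0⟩ : ∃ x0 : ℝ, g x0 = 1 := by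
    refine ⟨(g 1)⁻¹ • (1 : ℝ), ?_⟩
    rw [map_smul, smul_eq_mul, inv_mul_cancel₀ hg]
  -- a nonzero kernel element
  obtain ⟨v, hv0, hv⟩ : ∃ v : ℝ, v ≠ 0 ∧ g v = 0 := by
    by_contra h
    push Not at h
    have hinj : Function.Injective g := by
      rw [injective_iff_map_eq_zero]
      intro a ha
      by_contra hne
      exact h a hne ha
    have : Countable ℝ := hinj.countable
    exact not_countable this
  intro U hU
  rw [Metric.mem_nhds_iff] at hU
  obtain ⟨ε, hε, hball⟩ := hU
  have hv' : 0 < |v| := abs_pos.2 hv0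
  obtain ⟨q, hq1, hq2⟩ := exists_rat_btwn
    (show -x0 / v - ε / |v| < -x0 / v + ε / |v| by
      have : 0 < ε / |v| := div_pos hε hv'
      linarith)
  refine ⟨x0 + q • v, hball ?_, ?_⟩
  · rw [Metric.mem_ball, Real.dist_eq, sub_zero]
    have h1 : |(q : ℝ) - (-x0 / v)| < ε / |v| := by
      rw [abs_lt]; constructor <;> linarith
    have h2 : x0 + q • v = ((q : ℝ) - (-x0 / v)) * v := by
      rw [Rat.smul_def]; field_simp; ring
    rw [h2, abs_mul]
    calc |(q : ℝ) - (-x0 / v)| * |v| < ε / |v| * |v| := mul_lt_mul_of_pos_right h1 hv'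
      _ = ε := by field_simp
  · rw [map_add, map_smul, hx0, hv]; simp

/-- The functional. -/
noncomputable def f : ℝ →ₗ[ℚ] ℚ := exists_functional.choose

lemma f_spec : ∀ U ∈ nhds (0 : ℝ), ∃ y ∈ U, f y = 1 := exists_functional.choose_spec

/-- A measurable set on which `⌊f⌋` has constant parity is null. -/
lemma null_of_parity {B : Set ℝ} (hB : MeasurableSet B)
    (hpar : ∀ x ∈ B, ∀ y ∈ B, Even (⌊f x⌋ - ⌊f y⌋)) : volume B = 0 := by
  by_contra hne
  have hnh : B - B ∈ nhds (0 : ℝ) :=
    Measure.sub_mem_nhds_zero_of_addHaar_pos volume B hB (pos_iff_ne_zero.2 hne)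
  obtain ⟨y, hy, hf⟩ := f_spec _ hnh
  obtain ⟨a, ha, b, hb, rfl⟩ := hy
  rw [map_sub] at hf
  have h1 : ⌊f a⌋ = ⌊f b⌋ + 1 := by
    have : f a = f b + 1 := by linarith
    rw [this, Int.floor_add_one]
  have h2 := hpar a ha b hb
  rw [h1] at h2
  simp at h2

/-- The base measure: Lebesgue measure on `[0,1)`. -/
noncomputable def μ : Measure ℝ := volume.restrict (Ico 0 1)

lemma μ_univ : μ univ = 1 := by simp [μ]

/-- What the two state spaces have in common. -/
structure Good (T : Set ℝ) : Prop where
  two : (2 : ℝ) ∈ T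
  sub : ∀ x ∈ T, x ≠ 2 → 0 ≤ x ∧ x < 1
  thick : ∀ B : Set ℝ, MeasurableSet B → Disjoint B T → μ B = 0

/-- The first state space. -/
def E : Set ℝ := {x | x = 2 ∨ (x ∈ Ico (0 : ℝ) 1 ∧ Even ⌊f x⌋)}

/-- The second state space. -/
def O : Set ℝ := {x | x = 2 ∨ (x ∈ Ico (0 : ℝ) 1 ∧ ¬ Even ⌊f x⌋)}

lemma good_E : Good E where
  two := Or.inl rfl
  sub := by
    rintro x (h | h) hne
    · exact absurd h hne
    · exact h.1
  thick := by
    intro B hB hd
    have h := null_of_parity (B := B ∩ Ico 0 1) (hB.inter measurableSet_Ico) (by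
      rintro x ⟨hx, hx1⟩ y ⟨hy, hy1⟩
      have hx2 : ¬ Even ⌊f x⌋ := fun h => Set.disjoint_left.1 hd hx (Or.inr ⟨hx1, h⟩)
      have hy2 : ¬ Even ⌊f y⌋ := fun h => Set.disjoint_left.1 hd hy (Or.inr ⟨hy1, h⟩)
      rw [Int.not_even_iff_odd] at hx2 hy2
      exact hx2.sub_odd hy2)
    rwa [μ, Measure.restrict_apply hB]

lemma good_O : Good O where
  two := Or.inl rfl
  sub := by
    rintro x (h | h) hne
    · exact absurd h hne
    · exact h.1
  thick := by
    intro B hB hd
    have h := null_of_parity (B := B ∩ Ico 0 1) (hB.inter measurableSet_Ico) (by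
      rintro x ⟨hx, hx1⟩ y ⟨hy, hy1⟩
      have hx2 : Even ⌊f x⌋ := by
        by_contra h
        exact Set.disjoint_left.1 hd hx (Or.inr ⟨hx1, h⟩)
      have hy2 : Even ⌊f y⌋ := by
        by_contra h
        exact Set.disjoint_left.1 hd hy (Or.inr ⟨hy1, h⟩)
      exact hx2.sub hy2)
    rwa [μ, Measure.restrict_apply hB]

/-! ### The trace measure -/

/-- The trace of `μ` on an arbitrary subset. -/
noncomputable def tr (T : Set ℝ) : Measure T :=
  (OuterMeasure.comap (Subtype.val : T → ℝ) μ.toOuterMeasure).toMeasure (by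
    rintro A ⟨B, hB, rfl⟩
    intro t
    rw [OuterMeasure.comap_apply, OuterMeasure.comap_apply, OuterMeasure.comap_apply,
      Set.image_inter_preimage, Set.image_sdiff_preimage]
    exact (measure_inter_add_sdiff (μ := μ) (Subtype.val '' t) hB).symm)

lemma tr_apply {T : Set ℝ} (hT : Good T) {B : Set ℝ} (hB : MeasurableSet B) :
    tr T (Subtype.val ⁻¹' B) = μ B := by
  rw [tr, toMeasure_apply _ _ (measurable_subtype_coe hB), OuterMeasure.comap_apply,
    Subtype.image_preimage_coe]
  change μ (T ∩ B) = μ B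
  refine le_antisymm (measure_mono Set.inter_subset_right) ?_
  have h1 : μ (B \ toMeasurable μ (T ∩ B)) = 0 := by
    refine hT.thick _ (hB.diff (measurableSet_toMeasurable _ _)) ?_
    rw [Set.disjoint_left]
    rintro x ⟨hxB, hx⟩ hxT
    exact hx (subset_toMeasurable μ _ ⟨hxT, hxB⟩)
  calc μ B ≤ μ (B \ toMeasurable μ (T ∩ B)) + μ (toMeasurable μ (T ∩ B)) := by
        refine (measure_mono ?_).trans (measure_union_le _ _)
        intro x hx
        by_cases h : x ∈ toMeasurable μ (T ∩ B)
        · exact Or.inr h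
        · exact Or.inl ⟨hx, h⟩
    _ = μ (T ∩ B) := by rw [h1, zero_add, measure_toMeasurable]

/-! ### The processes -/

open Classical in
/-- The transition measures. -/
noncomputable def κ (T : Set ℝ) (hT : Good T) (x : T) : Measure T :=
  if (x : ℝ) = 2 then tr T else ENNReal.ofReal ((x : ℝ) / 2) • Measure.dirac ⟨2, hT.two⟩

open Classical in
lemma κ_apply {T : Set ℝ} (hT : Good T) (x : T) {B : Set ℝ} (hB : MeasurableSet B) :
    κ T hT x (Subtype.val ⁻¹' B) =
      if (x : ℝ) = 2 then μ B
      else ENNReal.ofReal ((x : ℝ) / 2) * (if (2 : ℝ) ∈ B then 1 else 0) := by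
  unfold κ
  split_ifs with h1 h2
  · exact tr_apply hT hB
  · rw [Measure.smul_apply, Measure.dirac_apply' _ (measurable_subtype_coe hB)]
    simp [h2]
  · rw [Measure.smul_apply, Measure.dirac_apply' _ (measurable_subtype_coe hB)]
    simp [h2]

lemma measurable_κ {T : Set ℝ} (hT : Good T) : Measurable (κ T hT) := by
  classical
  refine Measure.measurable_of_measurable_coe _ ?_
  rintro _ ⟨B, hB, rfl⟩
  simp_rw [κ_apply hT _ hB]
  refine Measurable.ite ?_ measurable_const ?_
  · exact measurable_subtype_coe (measurableSet_singleton (2 : ℝ))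
  · exact (ENNReal.measurable_ofReal.comp (measurable_subtype_coe.div_const 2)).mul_const _

lemma κ_univ {T : Set ℝ} (hT : Good T) (x : T) :
    κ T hT x univ = if (x : ℝ) = 2 then 1 else ENNReal.ofReal ((x : ℝ) / 2) := by
  classical
  have h := κ_apply hT x MeasurableSet.univ
  rw [Set.preimage_univ] at h
  rw [h, μ_univ]
  simp

lemma κ_le {T : Set ℝ} (hT : Good T) (x : T) : κ T hT x univ ≤ 1 := by
  rw [κ_univ]
  split_ifs with h
  · exact le_rfl
  · have := hT.sub x x.2 h
    rw [← ENNReal.ofReal_one]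
    exact ENNReal.ofReal_le_ofReal (by linarith [this.2])

/-- The process: all labels act by the same kernel. -/
noncomputable def proc (L : Type u) (T : Set ℝ) (hT : Good T) : LMP L T where
  τ := fun _ => ⟨κ T hT, measurable_κ hT⟩
  sub := fun _ s => κ_le hT s

lemma proc_τ (L : Type u) {T : Set ℝ} (hT : Good T) (a : L) (x : T) :
    (proc L T hT).τ a x = κ T hT x := rfl

/-- Every formula defines the trace of a Borel set which does not depend on the process. -/
lemma sem_uniform (L : Type u) (φ : Form L) :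
    ∃ B : Set ℝ, MeasurableSet B ∧ ∀ (T : Set ℝ) (hT : Good T),
      (proc L T hT).sem φ = Subtype.val ⁻¹' B := by
  classical
  induction φ with
  | top => exact ⟨univ, MeasurableSet.univ, fun T hT => by simp [LMP.sem]⟩
  | and φ ψ ih1 ih2 =>
    obtain ⟨B1, h1, e1⟩ := ih1
    obtain ⟨B2, h2, e2⟩ := ih2
    exact ⟨B1 ∩ B2, h1.inter h2, fun T hT => by simp [LMP.sem, e1 T hT, e2 T hT]⟩
  | dia a q φ ih =>
    obtain ⟨B, hB, e⟩ := ih
    refine ⟨{x | ENNReal.ofReal ((q : ℚ) : ℝ) ≤ if x = 2 then μ B
      else ENNReal.ofReal (x / 2) * (if (2 : ℝ) ∈ B then 1 else 0)}, ?_, ?_⟩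
    · refine measurableSet_le measurable_const ?_
      refine Measurable.ite (measurableSet_singleton _) measurable_const ?_
      exact (ENNReal.measurable_ofReal.comp (measurable_id.div_const 2)).mul_const _
    · intro T hT
      ext x
      simp only [LMP.sem, mem_ofPred_eq, mem_preimage]
      rw [proc_τ, e T hT, κ_apply hT x hB]

/-- **Negative answer to Q1 of MP_e518dc_lc.**  For every nonempty label set `L` there are
labelled Markov processes `M`, `M'` over `L` and logically equivalent states `s`, `s'` which are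
not related by any `⊕`-bisimulation between `M` and `M'`. -/
theorem result (L : Type u) [Nonempty L] :
    ∃ (S S' : Type) (_ : MeasurableSpace S) (_ : MeasurableSpace S') (M : LMP L S)
      (M' : LMP L S') (s : S) (s' : S'), LogEq M M' s s' ∧
      ¬ ∃ R : S ⊕ S' → S ⊕ S' → Prop, SumBisim M M' R ∧ R (Sum.inl s) (Sum.inr s') := by
  classical
  obtain ⟨a⟩ := ‹Nonempty L›
  refine ⟨E, O, inferInstance, inferInstance, proc L E good_E, proc L O good_O,
    ⟨2, good_E.two⟩, ⟨2, good_O.two⟩, ?_, ?_⟩
  · intro φ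
    obtain ⟨B, -, e⟩ := sem_uniform L φ
    rw [e E good_E, e O good_O]
    rfl
  · rintro ⟨R, ⟨hR, hb⟩, h0⟩
    -- the only cross pair
    have cross : ∀ (x : E) (y : O), R (Sum.inl x) (Sum.inr y) → (x : ℝ) = 2 := by
      intro x y hxy
      have h := hb _ _ hxy (by simp) a univ (fun _ _ _ _ => mem_univ _)
        ⟨univ, univ, MeasurableSet.univ, MeasurableSet.univ, by
          ext z; rcases z with z | z <;> simp⟩
      simp only [sumτ, proc_τ, Set.preimage_univ, κ_univ] at h
      by_contra hx
      rw [if_neg hx] at h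
      have hx1 := good_E.sub x x.2 hx
      by_cases hy : (y : ℝ) = 2
      · rw [if_pos hy, ENNReal.ofReal_eq_one] at h
        linarith [hx1.2]
      · rw [if_neg hy] at h
        have hy1 := good_O.sub y y.2 hy
        rw [ENNReal.ofReal_eq_ofReal_iff (by linarith [hx1.1]) (by linarith [hy1.1])] at h
        have hxy' : (x : ℝ) = y := by linarith
        rcases x.2 with hx2 | hx2
        · exact hx hx2
        rcases y.2 with hy2 | hy2
        · exact hy hy2
        rw [hxy'] at hx2
        exact hy2.2 hx2.2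
    -- the closed set separating the two states
    have h := hb _ _ h0 (by simp) a (Sum.inl '' {x : E | (x : ℝ) ≠ 2}) (by
      rintro x y hxy ⟨z, hz, rfl⟩
      have hxy' : R (Sum.inl z) y := by
        rcases hxy with h | h
        · exact h
        · exact hR.symm h
      rcases y with y | y
      · refine ⟨y, ?_, rfl⟩
        intro hy
        have hy' : y = ⟨2, good_E.two⟩ := Subtype.ext hy
        subst hy'
        exact hz (cross _ _ (hR.trans hxy' h0))
      · exact absurd (cross _ _ hxy') hz)
      ⟨{x : E | (x : ℝ) ≠ 2}, ∅,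
        measurable_subtype_coe (measurableSet_singleton (2 : ℝ)).compl, MeasurableSet.empty, by
          simp⟩
    simp only [sumτ, proc_τ] at h
    have e1 : (Sum.inl ⁻¹' (Sum.inl '' {x : E | (x : ℝ) ≠ 2} : Set (E ⊕ O)) : Set E) =
        Subtype.val ⁻¹' ({2}ᶜ : Set ℝ) := by
      ext x; simp
    have e2 : (Sum.inr ⁻¹' (Sum.inl '' {x : E | (x : ℝ) ≠ 2} : Set (E ⊕ O)) : Set O) = ∅ := by
      ext x; simp
    rw [e1, e2, κ_apply good_E _ (measurableSet_singleton (2 : ℝ)).compl, if_pos rfl,
      measure_empty] at h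
    have h3 : μ ({2}ᶜ : Set ℝ) = 1 := by
      rw [μ, Measure.restrict_apply (measurableSet_singleton (2 : ℝ)).compl]
      have : ({2}ᶜ : Set ℝ) ∩ Ico 0 1 = Ico 0 1 := by
        rw [Set.inter_eq_right]
        intro x hx hx2
        rw [Set.mem_singleton_iff] at hx2
        rw [hx2] at hx
        linarith [hx.2]
      rw [this]
      simp
    rw [h3] at h
    exact one_ne_zero h

end Pool.Agent.Results.MP_e518dc_lc.LogicVersusSumBisim
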